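import Pool.Agent.Q265.LK.Bas
import Pool.Agent.Q150.LQ.BAS1

/-!
# LK: monomials, the group `Nn p y`, the sums `Psi`, primes with given symbols
-/

set_option autoImplicit false

namespace Pool.Agent.Q265.LK

open NumberField IsDedekindDomain Filter Topology
open Pool.Agent.Q283.LQ (Sm Box Nest nS)
open Pool.Agent.Q7.LK

section

variable {p : ℕ} [Fact p.Prime] {F : Type} [Field F] [NumberField F]

theorem vl_fin (p : ℕ) {a : F} (ha : a ≠ 0) : {v : HeightOneSpectrum (𝓞 F) | vl p v a ≠ 0}.Finite := by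
  refine ((HeightOneSpectrum.Support.finite (𝓞 F) a).union
    (HeightOneSpectrum.Support.finite (𝓞 F) a⁻¹)).subset ?_
  intro v hv
  have h1 : v.valuation F a ≠ 1 := fun h => hv (by
    unfold vl
    rw [h, WithZero.log_one]
    simp)
  rcases lt_or_gt_of_ne h1 with h2 | h2
  · right
    show 1 < v.valuation F a⁻¹
    rw [map_inv₀]
    exact (one_lt_inv₀ (zero_lt_iff.2 ((Valuation.ne_zero_iff _).2 ha))).2 h2
  · left
    exact h2

/-- primes with given symbols outside a finite set -/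
theorem exists_q (hCHEB : S_CHEB) {ζ : F} (hζ : IsPrimitiveRoot ζ p) {m : ℕ} (a : Fin m → F)
    (ha : ∀ i, a i ≠ 0)
    (hind : ∀ c : Fin m → ZMod p, IsPow p (mon a c) → c = 0) (e : Fin m → ZMod p)
    {T : Set (HeightOneSpectrum (𝓞 F))} (hT : T.Finite) :
    ∃ q, q ∉ T ∧ ∀ i, sy p ζ q (a i) = e i := by
  by_contra hcon
  push Not at hcon
  have hp : p.Prime := Fact.out
  have h1 := hCHEB p F ζ hζ m a ha hind e
  have h2 : Tendsto (fun X : ℕ =>
      ({v : HeightOneSpectrum (𝓞 F) | Ideal.absNorm v.asIdeal ≤ X ∧ ∀ i, sy p ζ v (a i) = e i}.ncard : ℝ) /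
      ({v : HeightOneSpectrum (𝓞 F) | Ideal.absNorm v.asIdeal ≤ X}.ncard : ℝ)) atTop (𝓝 0) := by
    have h3 : Tendsto (fun X : ℕ => (T.ncard : ℝ) *
        (({v : HeightOneSpectrum (𝓞 F) | Ideal.absNorm v.asIdeal ≤ X}.ncard : ℝ))⁻¹) atTop (𝓝 0) := by
      have := (Pool.Agent.Q150.LQ.B1.norm_tendsto (F := F)).inv_tendsto_atTop.const_mul (T.ncard : ℝ)
      rw [mul_zero] at this
      exact this
    refine tendsto_of_tendsto_of_tendsto_of_le_of_le tendsto_const_nhds h3 ?_ ?_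
    · intro X
      positivity
    · intro X
      show (_ : ℝ) / _ ≤ _ * _
      rw [div_eq_mul_inv]
      refine mul_le_mul_of_nonneg_right ?_ (by positivity)
      have h4 : {v : HeightOneSpectrum (𝓞 F) | Ideal.absNorm v.asIdeal ≤ X ∧ ∀ i, sy p ζ v (a i) = e i} ⊆ T := by
        rintro v ⟨_, hv⟩
        by_contra hvT
        obtain ⟨i, hi⟩ := hcon v hvT
        exact hi (hv i)
      exact_mod_cast Set.ncard_le_ncard h4 hT
  have h3 : (1 : ℝ) / (p : ℝ) ^ m = 0 := tendsto_nhds_unique h1 h2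
  have h5 : (0 : ℝ) < p := by exact_mod_cast hp.pos
  have h4 : (0 : ℝ) < 1 / (p : ℝ) ^ m := by positivity
  linarith

/-! ## Monomials -/

theorem val_mon {f : ℕ} {v : HeightOneSpectrum (𝓞 F)} (u : Fin f → F)
    (hu : ∀ l, v.valuation F (u l) = 1) (c : Fin f → ZMod p) : v.valuation F (mon u c) = 1 := by
  unfold mon
  rw [map_prod]
  refine Finset.prod_eq_one fun l _ => ?_
  rw [map_pow, hu, one_pow]

theorem mon_ne {f : ℕ} (u : Fin f → F) (hu : ∀ l, u l ≠ 0) (c : Fin f → ZMod p) : mon u c ≠ 0 := by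
  unfold mon
  exact Finset.prod_ne_zero_iff.2 fun l _ => pow_ne_zero _ (hu l)

theorem natCast_val (c : ZMod p) : ((c.val : ℕ) : ZMod p) = c := ZMod.natCast_zmod_val c

theorem vl_mon (hB : S_BAS) {f : ℕ} (v : HeightOneSpectrum (𝓞 F)) (u : Fin f → F)
    (hu0 : ∀ l, u l ≠ 0) (c : Fin f → ZMod p) : vl p v (mon u c) = ∑ l, c l * vl p v (u l) := by
  classical
  unfold mon
  have key : ∀ s : Finset (Fin f), vl p v (∏ l ∈ s, u l ^ (c l).val) = ∑ l ∈ s, c l * vl p v (u l) := by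
    intro s
    induction s using Finset.induction_on with
    | empty => simpa using vl_one hB v
    | insert i s hi ih =>
      rw [Finset.prod_insert hi, Finset.sum_insert hi, vl_mul hB v (pow_ne_zero _ (hu0 i))
        (Finset.prod_ne_zero_iff.2 fun l _ => pow_ne_zero _ (hu0 l)), ih, vl_pow hB v (hu0 i), natCast_val]
  exact key Finset.univ

theorem sy_mon (hB : S_BAS) {ζ : F} (hζ : IsPrimitiveRoot ζ p) {f : ℕ} {v : HeightOneSpectrum (𝓞 F)}
    (hv : ¬ Dp p v) (u : Fin f → F)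
    (hu0 : ∀ l, u l ≠ 0) (hu : ∀ l, vl p v (u l) = 0) (c : Fin f → ZMod p) :
    sy p ζ v (mon u c) = ∑ l, c l * sy p ζ v (u l) := by
  classical
  unfold mon
  have key : ∀ s : Finset (Fin f), vl p v (∏ l ∈ s, u l ^ (c l).val) = 0 ∧
      sy p ζ v (∏ l ∈ s, u l ^ (c l).val) = ∑ l ∈ s, c l * sy p ζ v (u l) := by
    intro s
    induction s using Finset.induction_on with
    | empty => exact ⟨by simpa using vl_one hB v, by simpa using sy_one hB hv hζ⟩
    | insert i s hi ih =>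
      have hp0 : ∏ l ∈ s, u l ^ (c l).val ≠ 0 := Finset.prod_ne_zero_iff.2 fun l _ => pow_ne_zero _ (hu0 l)
      have hi0 : u i ^ (c i).val ≠ 0 := pow_ne_zero _ (hu0 i)
      have hi1 : vl p v (u i ^ (c i).val) = 0 := by rw [vl_pow hB v (hu0 i), hu, mul_zero]
      rw [Finset.prod_insert hi, Finset.sum_insert hi]
      refine ⟨by rw [vl_mul hB v hi0 hp0, hi1, ih.1, add_zero], ?_⟩
      rw [sy_mul hB hv hζ hi0 hp0 hi1 ih.1, ih.2, sy_pow hB hv hζ (hu0 i) (hu i), natCast_val]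
  exact (key Finset.univ).2

/-- products of monomials -/
theorem mon_mul {f : ℕ} (u : Fin f → F) (hu : ∀ l, u l ≠ 0) (c c' : Fin f → ZMod p) :
    ∃ z : F, z ≠ 0 ∧ mon u c * mon u c' = z ^ p * mon u (c + c') := by
  have key : ∀ (x : F) (a b : ZMod p), x ≠ 0 → ∃ z : F, z ≠ 0 ∧
      x ^ a.val * x ^ b.val = z ^ p * x ^ (a + b).val := by
    intro x a b hx
    refine ⟨x ^ ((a.val + b.val) / p), pow_ne_zero _ hx, ?_⟩
    rw [ZMod.val_add, ← pow_add, ← pow_mul, ← pow_add, mul_comm, Nat.div_add_mod]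
  choose z hz0 hz using fun l => key (u l) (c l) (c' l) (hu l)
  refine ⟨∏ l, z l, Finset.prod_ne_zero_iff.2 fun l _ => hz0 l, ?_⟩
  unfold mon
  rw [← Finset.prod_mul_distrib, ← Finset.prod_pow, ← Finset.prod_mul_distrib]
  exact Finset.prod_congr rfl fun l _ => hz l

/-- quotients of monomials -/
theorem mon_div {f : ℕ} (u : Fin f → F) (hu : ∀ l, u l ≠ 0) (c c' : Fin f → ZMod p) :
    ∃ z : F, z ≠ 0 ∧ mon u c / mon u c' = z ^ p * mon u (c - c') := by
  obtain ⟨z, hz, h⟩ := mon_mul u hu (c - c') c'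
  rw [sub_add_cancel] at h
  refine ⟨z⁻¹, inv_ne_zero hz, ?_⟩
  have h1 := mon_ne u hu c'
  have h2 : z ^ p ≠ 0 := pow_ne_zero p hz
  rw [inv_pow, div_eq_iff h1]
  field_simp
  linear_combination -h

/-! ## The group `Nn p y` -/

theorem Nn_mul (hB : S_BAS) {y : ℕ} {a b : F} (ha : Nn p y a) (hb : Nn p y b) : Nn p y (a * b) :=
  ⟨mul_ne_zero ha.1 hb.1, fun v hv => lpw_mul hB (ha.2 v hv) (hb.2 v hv)⟩

theorem Nn_inv (hB : S_BAS) {y : ℕ} {a : F} (ha : Nn p y a) : Nn p y a⁻¹ :=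
  ⟨inv_ne_zero ha.1, fun v hv => lpw_inv hB (ha.2 v hv)⟩

theorem Nn_div (hB : S_BAS) {y : ℕ} {a b : F} (ha : Nn p y a) (hb : Nn p y b) : Nn p y (a / b) := by
  rw [div_eq_mul_inv]
  exact Nn_mul hB ha (Nn_inv hB hb)

theorem Nn_pow (hB : S_BAS) (y : ℕ) {a : F} (ha : a ≠ 0) : Nn p y (a ^ p) :=
  ⟨pow_ne_zero p ha, fun v _ => lpw_pow hB v ha⟩

theorem Nn_one (hB : S_BAS) (y : ℕ) : Nn p y (1 : F) := by
  have h := Nn_pow (p := p) hB y (one_ne_zero (α := F))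
  rwa [one_pow] at h

theorem Nn_cancel (hB : S_BAS) {y : ℕ} {a b : F} (ha : a ≠ 0) (h : Nn p y (a ^ p * b)) :
    Nn p y b := by
  have h1 := Nn_div hB h (Nn_pow (p := p) hB y ha)
  have h2 : a ^ p ≠ 0 := pow_ne_zero p ha
  rwa [mul_div_cancel_left₀ b h2] at h1

/-! ## The homomorphism `Psi` -/

noncomputable def Psi (p : ℕ) (ζ : F) (y : ℕ) (b c : F) : ZMod p :=
  ∑ᶠ v : {v : HeightOneSpectrum (𝓞 F) // ¬ Sm y v}, vl p v.1 b * sy p ζ v.1 c

theorem Psi_supp (ζ : F) (y : ℕ) {b : F} (hb : b ≠ 0) (c : F) :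
    (Function.support fun v : {v : HeightOneSpectrum (𝓞 F) // ¬ Sm y v} =>
      vl p v.1 b * sy p ζ v.1 c).Finite := by
  refine ((vl_fin p hb).preimage Subtype.val_injective.injOn).subset ?_
  intro v hv h
  apply hv
  show vl p v.1 b * sy p ζ v.1 c = 0
  rw [h, zero_mul]

theorem Psi_mul (hB : S_BAS) (ζ : F) (y : ℕ) {b b' : F} (hb : b ≠ 0) (hb' : b' ≠ 0) (c : F) :
    Psi p ζ y (b * b') c = Psi p ζ y b c + Psi p ζ y b' c := by
  unfold Psi
  rw [← finsum_add_distrib (Psi_supp ζ y hb c) (Psi_supp ζ y hb' c)]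
  refine finsum_congr fun v => ?_
  rw [vl_mul hB v.1 hb hb', add_mul]

theorem Psi_unit {ζ : F} {y : ℕ} {b : F}
    (hb : ∀ v : HeightOneSpectrum (𝓞 F), ¬ Sm y v → vl p v b = 0) (c : F) : Psi p ζ y b c = 0 := by
  unfold Psi
  rw [← finsum_zero (α := {v : HeightOneSpectrum (𝓞 F) // ¬ Sm y v}) (M := ZMod p)]
  refine finsum_congr fun v => ?_
  rw [hb v.1 v.2, zero_mul]

theorem Psi_unit' (hB : S_BAS) {ζ : F} (hζ : IsPrimitiveRoot ζ p) {y : ℕ} (hy : p ≤ y) (b : F) {c : F}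
    (hc : ∀ v : HeightOneSpectrum (𝓞 F), ¬ Sm y v → Lpw p v c) : Psi p ζ y b c = 0 := by
  unfold Psi
  rw [← finsum_zero (α := {v : HeightOneSpectrum (𝓞 F) // ¬ Sm y v}) (M := ZMod p)]
  refine finsum_congr fun v => ?_
  have hv : ¬ Dp p v.1 := fun h => v.2 ⟨p, Fact.out, hy, h⟩
  rw [sy_lpw hB hv hζ (hc v.1 v.2), mul_zero]

theorem Psi_prime {ζ : F} {y : ℕ} {q : HeightOneSpectrum (𝓞 F)} {P : F}
    (hq : ¬ Sm y q) (h1 : q.valuation F P = WithZero.exp (-1 : ℤ))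
    (h2 : ∀ v : HeightOneSpectrum (𝓞 F), ¬ Sm y v → v ≠ q → v.valuation F P = 1) (c : F) :
    Psi p ζ y P c = sy p ζ q c := by
  unfold Psi
  rw [finsum_eq_single _ (⟨q, hq⟩ : {v : HeightOneSpectrum (𝓞 F) // ¬ Sm y v})]
  · have h3 : vl p q P = 1 := by
      unfold vl
      rw [h1, WithZero.log_exp]
      simp
    show vl p q P * sy p ζ q c = _
    rw [h3, one_mul]
  · intro v hv
    have h3 : v.1 ≠ q := fun h => hv (Subtype.ext h)
    rw [vl_of_val_one v.1 (h2 v.1 v.2 h3), zero_mul]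

theorem Psi_one (hB : S_BAS) (ζ : F) (y : ℕ) (c : F) : Psi p ζ y 1 c = 0 :=
  Psi_unit (fun v _ => vl_one hB v) c

theorem Psi_inv (hB : S_BAS) (ζ : F) (y : ℕ) {b : F} (hb : b ≠ 0) (c : F) :
    Psi p ζ y b⁻¹ c = - Psi p ζ y b c := by
  have h := Psi_mul (p := p) hB ζ y hb (inv_ne_zero hb) c
  rw [mul_inv_cancel₀ hb, Psi_one hB] at h
  linear_combination -h

theorem Psi_div (hB : S_BAS) (ζ : F) (y : ℕ) {b b' : F} (hb : b ≠ 0) (hb' : b' ≠ 0) (c : F) :
    Psi p ζ y (b / b') c = Psi p ζ y b c - Psi p ζ y b' c := by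
  rw [div_eq_mul_inv, Psi_mul hB ζ y hb (inv_ne_zero hb'), Psi_inv hB ζ y hb', sub_eq_add_neg]

theorem Psi_pow (hB : S_BAS) (ζ : F) (y : ℕ) {b : F} (hb : b ≠ 0) (n : ℕ) (c : F) :
    Psi p ζ y (b ^ n) c = n * Psi p ζ y b c := by
  induction n with
  | zero => rw [pow_zero, Psi_one hB, Nat.cast_zero, zero_mul]
  | succ n ih =>
    rw [pow_succ, Psi_mul hB ζ y (pow_ne_zero n hb) hb, ih]
    push_cast
    ring

theorem Psi_mon (hB : S_BAS) (ζ : F) (y : ℕ) {g : ℕ} (r : Fin g → F) (hr : ∀ l, r l ≠ 0)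
    (φ : Fin g → ZMod p) (c : F) : Psi p ζ y (mon r φ) c = ∑ l, φ l * Psi p ζ y (r l) c := by
  classical
  unfold mon
  have key : ∀ s : Finset (Fin g), Psi p ζ y (∏ l ∈ s, r l ^ (φ l).val) c =
      ∑ l ∈ s, φ l * Psi p ζ y (r l) c := by
    intro s
    induction s using Finset.induction_on with
    | empty =>
      rw [Finset.prod_empty, Finset.sum_empty]
      exact Psi_one hB ζ y c
    | insert i s hi ih =>
      rw [Finset.prod_insert hi, Finset.sum_insert hi,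
        Psi_mul hB ζ y (pow_ne_zero _ (hr i)) (Finset.prod_ne_zero_iff.2 fun l _ => pow_ne_zero _ (hr l)),
        ih, Psi_pow hB ζ y (hr i), natCast_val]
  exact key Finset.univ

end

end Pool.Agent.Q265.LK
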