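import Pool.Agent.Q7.LK.Stm

/-!
# Project LK: elementary consequences of `S_BAS`
-/

set_option autoImplicit false

namespace Pool.Agent.Q265.LK

open NumberField IsDedekindDomain Filter Topology
open Pool.Agent.Q283.LQ (Sm Box Nest nS)
open Pool.Agent.Q7.LK

section

variable {p : ℕ} [Fact p.Prime] {F : Type} [Field F] [NumberField F]

theorem lpw_ne (hB : S_BAS) {v : HeightOneSpectrum (𝓞 F)} {a : F} (h : Lpw p v a) : a ≠ 0 :=
  ((hB p F v).1 a h).1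

theorem lpw_vl (hB : S_BAS) {v : HeightOneSpectrum (𝓞 F)} {a : F} (h : Lpw p v a) : vl p v a = 0 :=
  ((hB p F v).1 a h).2

theorem lpw_mul (hB : S_BAS) {v : HeightOneSpectrum (𝓞 F)} {a b : F} (ha : Lpw p v a)
    (hb : Lpw p v b) : Lpw p v (a * b) := (hB p F v).2.1 a b ha hb

theorem lpw_pow (hB : S_BAS) (v : HeightOneSpectrum (𝓞 F)) {a : F} (ha : a ≠ 0) :
    Lpw p v (a ^ p) := (hB p F v).2.2.1 a ha

theorem lpw_inv (hB : S_BAS) {v : HeightOneSpectrum (𝓞 F)} {a : F} (ha : Lpw p v a) :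
    Lpw p v a⁻¹ := (hB p F v).2.2.2.1 a ha

theorem lpw_div (hB : S_BAS) {v : HeightOneSpectrum (𝓞 F)} {a b : F} (ha : Lpw p v a)
    (hb : Lpw p v b) : Lpw p v (a / b) := by
  rw [div_eq_mul_inv]
  exact lpw_mul hB ha (lpw_inv hB hb)

theorem lpw_one (hB : S_BAS) (v : HeightOneSpectrum (𝓞 F)) : Lpw p v (1 : F) := by
  have h := lpw_pow (p := p) hB v (one_ne_zero (α := F))
  rwa [one_pow] at h

theorem vl_mul (hB : S_BAS) (v : HeightOneSpectrum (𝓞 F)) {a b : F} (ha : a ≠ 0) (hb : b ≠ 0) :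
    vl p v (a * b) = vl p v a + vl p v b := (hB p F v).2.2.2.2.1 a b ha hb

theorem vl_one (hB : S_BAS) (v : HeightOneSpectrum (𝓞 F)) : vl p v (1 : F) = 0 :=
  lpw_vl hB (lpw_one hB v)

theorem vl_inv (hB : S_BAS) (v : HeightOneSpectrum (𝓞 F)) {a : F} (ha : a ≠ 0) :
    vl p v a⁻¹ = - vl p v a := by
  have h := vl_mul (p := p) hB v ha (inv_ne_zero ha)
  rw [mul_inv_cancel₀ ha, vl_one hB] at h
  linear_combination -h

theorem vl_div (hB : S_BAS) (v : HeightOneSpectrum (𝓞 F)) {a b : F} (ha : a ≠ 0) (hb : b ≠ 0) :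
    vl p v (a / b) = vl p v a - vl p v b := by
  rw [div_eq_mul_inv, vl_mul hB v ha (inv_ne_zero hb), vl_inv hB v hb, sub_eq_add_neg]

theorem vl_pow (hB : S_BAS) (v : HeightOneSpectrum (𝓞 F)) {a : F} (ha : a ≠ 0) (n : ℕ) :
    vl p v (a ^ n) = n * vl p v a := by
  induction n with
  | zero => rw [pow_zero, vl_one hB, Nat.cast_zero, zero_mul]
  | succ n ih =>
    rw [pow_succ, vl_mul hB v (pow_ne_zero n ha) ha, ih]
    push_cast
    ring

theorem vl_ppow (hB : S_BAS) (v : HeightOneSpectrum (𝓞 F)) {a : F} (ha : a ≠ 0) :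
    vl p v (a ^ p) = 0 := lpw_vl hB (lpw_pow hB v ha)

/-- `vl` of an element with valuation `1` -/
theorem vl_of_val_one (v : HeightOneSpectrum (𝓞 F)) {a : F} (h : v.valuation F a = 1) :
    vl p v a = 0 := by
  unfold vl
  rw [h, WithZero.log_one]
  simp

section symbols

variable {v : HeightOneSpectrum (𝓞 F)} {ζ : F}

theorem sy_mul (hB : S_BAS) (hv : ¬ Dp p v) (hζ : IsPrimitiveRoot ζ p) {a b : F} (ha : a ≠ 0)
    (hb : b ≠ 0) (h1 : vl p v a = 0) (h2 : vl p v b = 0) :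
    sy p ζ v (a * b) = sy p ζ v a + sy p ζ v b :=
  ((hB p F v).2.2.2.2.2.2 hv ζ hζ).2.2.1 a b ha hb h1 h2

theorem sy_zero_iff (hB : S_BAS) (hv : ¬ Dp p v) (hζ : IsPrimitiveRoot ζ p) {a : F} (ha : a ≠ 0)
    (h1 : vl p v a = 0) : sy p ζ v a = 0 ↔ Lpw p v a :=
  ((hB p F v).2.2.2.2.2.2 hv ζ hζ).2.2.2 a ha h1

theorem sy_lpw (hB : S_BAS) (hv : ¬ Dp p v) (hζ : IsPrimitiveRoot ζ p) {a : F} (h : Lpw p v a) :
    sy p ζ v a = 0 := (sy_zero_iff hB hv hζ (lpw_ne hB h) (lpw_vl hB h)).2 h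

theorem sy_one (hB : S_BAS) (hv : ¬ Dp p v) (hζ : IsPrimitiveRoot ζ p) : sy p ζ v (1 : F) = 0 :=
  sy_lpw hB hv hζ (lpw_one hB v)

theorem sy_ppow (hB : S_BAS) (hv : ¬ Dp p v) (hζ : IsPrimitiveRoot ζ p) {a : F} (ha : a ≠ 0) :
    sy p ζ v (a ^ p) = 0 := sy_lpw hB hv hζ (lpw_pow hB v ha)

theorem sy_inv (hB : S_BAS) (hv : ¬ Dp p v) (hζ : IsPrimitiveRoot ζ p) {a : F} (ha : a ≠ 0)
    (h1 : vl p v a = 0) : sy p ζ v a⁻¹ = - sy p ζ v a := by
  have h2 : vl p v a⁻¹ = 0 := by rw [vl_inv hB v ha, h1, neg_zero]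
  have h := sy_mul hB hv hζ ha (inv_ne_zero ha) h1 h2
  rw [mul_inv_cancel₀ ha, sy_one hB hv hζ] at h
  linear_combination -h

theorem sy_div (hB : S_BAS) (hv : ¬ Dp p v) (hζ : IsPrimitiveRoot ζ p) {a b : F} (ha : a ≠ 0)
    (hb : b ≠ 0) (h1 : vl p v a = 0) (h2 : vl p v b = 0) :
    sy p ζ v (a / b) = sy p ζ v a - sy p ζ v b := by
  have h3 : vl p v b⁻¹ = 0 := by rw [vl_inv hB v hb, h2, neg_zero]
  rw [div_eq_mul_inv, sy_mul hB hv hζ ha (inv_ne_zero hb) h1 h3, sy_inv hB hv hζ hb h2,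
    sub_eq_add_neg]

theorem sy_pow (hB : S_BAS) (hv : ¬ Dp p v) (hζ : IsPrimitiveRoot ζ p) {a : F} (ha : a ≠ 0)
    (h1 : vl p v a = 0) (n : ℕ) : sy p ζ v (a ^ n) = n * sy p ζ v a := by
  induction n with
  | zero => rw [pow_zero, sy_one hB hv hζ, Nat.cast_zero, zero_mul]
  | succ n ih =>
    have h2 : vl p v (a ^ n) = 0 := by rw [vl_pow hB v ha, h1, mul_zero]
    rw [pow_succ, sy_mul hB hv hζ (pow_ne_zero n ha) ha h2 h1, ih]
    push_cast
    ring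

end symbols

/-- the local classes form an equivalence relation -/
theorem lpw_div_self (hB : S_BAS) (v : HeightOneSpectrum (𝓞 F)) {b : F} (hb : b ≠ 0) :
    Lpw p v (b / b) := by
  rw [div_self hb]
  exact lpw_one hB v

theorem lpw_div_symm (hB : S_BAS) {v : HeightOneSpectrum (𝓞 F)} {b b' : F} (h : Lpw p v (b / b')) :
    Lpw p v (b' / b) := by
  have h1 := lpw_inv hB h
  rwa [inv_div] at h1

theorem lpw_div_trans (hB : S_BAS) {v : HeightOneSpectrum (𝓞 F)} {b b' b'' : F} (hb' : b' ≠ 0)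
    (h : Lpw p v (b / b')) (h' : Lpw p v (b' / b'')) : Lpw p v (b / b'') := by
  have h1 := lpw_mul hB h h'
  rwa [div_mul_div_cancel₀ hb'] at h1

/-- a power whose exponent is divisible by `p` -/
theorem lpw_pow_dvd (hB : S_BAS) (v : HeightOneSpectrum (𝓞 F)) {a : F} (ha : a ≠ 0) {n : ℕ}
    (h : p ∣ n) : Lpw p v (a ^ n) := by
  obtain ⟨m, rfl⟩ := h
  rw [mul_comm, pow_mul]
  exact lpw_pow hB v (pow_ne_zero m ha)

theorem dvd_sub_of_cast {m n : ℕ} (h : (m : ZMod p) = n) : p ∣ n - m := by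
  rcases le_total m n with hmn | hmn
  · have h1 : ((n - m : ℕ) : ZMod p) = 0 := by
      rw [Nat.cast_sub hmn, h, sub_self]
    exact (ZMod.natCast_eq_zero_iff _ _).1 h1
  · rw [Nat.sub_eq_zero_of_le hmn]
    exact dvd_zero p

/-- powers with congruent exponents -/
theorem lpw_pow_div (hB : S_BAS) (v : HeightOneSpectrum (𝓞 F)) {a : F} (ha : a ≠ 0) {m n : ℕ}
    (h : (m : ZMod p) = n) : Lpw p v (a ^ m / a ^ n) := by
  have key : ∀ k l : ℕ, k ≤ l → p ∣ l - k → Lpw p v (a ^ l / a ^ k) := by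
    intro k l hkl hd
    have h1 : a ^ l / a ^ k = a ^ (l - k) := by
      rw [div_eq_iff (pow_ne_zero k ha), ← pow_add, Nat.sub_add_cancel hkl]
    rw [h1]
    exact lpw_pow_dvd hB v ha hd
  rcases le_total m n with hmn | hmn
  · exact lpw_div_symm hB (key m n hmn (dvd_sub_of_cast h))
  · exact key n m hmn (dvd_sub_of_cast h.symm)

end

end Pool.Agent.Q265.LK
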