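import Pool.Agent.Q265.LK.Bas
import Pool.Agent.Q151.LQ.AA

/-!
# Project LK, job AA: the number of the classes with the local conditions
-/

set_option autoImplicit false

namespace Pool.Agent.Q265.LK

open NumberField IsDedekindDomain Filter Topology Finset
open Pool.Agent.Q283.LQ (Sm Box Nest nS)
open Pool.Agent.Q7.LK

/-- **JOB AA** -/
theorem aa (hB : S_BAS) : S_AA := by
  classical
  intro p _ F _ _ ζ hζ A c hL y D hy hD hfin B hBc hBn
  have hp : p.Prime := Fact.out
  have hDS : ∀ v : HeightOneSpectrum (𝓞 F), Dp p v → Sm y v := fun v hv => ⟨p, hp, hy, hv⟩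
  have hc0 : ∀ v : HeightOneSpectrum (𝓞 F), ¬ Sm y v → c v = 0 := fun v hv =>
    hL.zero v fun h => hv (hDS v h)
  obtain ⟨S, hS⟩ : ∃ S, S = hfin.toFinset := ⟨_, rfl⟩
  have hmS : ∀ v, v ∈ S ↔ Sm y v := fun v => by
    rw [hS, Set.Finite.mem_toFinset]
    rfl
  have hcardS : nS F y = S.card := by
    rw [hS]
    unfold nS
    exact Nat.card_eq_card_finite_toFinset hfin
  have hsumc : ∑ᶠ v, c v = ∑ v ∈ S, c v := by
    refine finsum_eq_sum_of_support_subset c ?_
    intro v hv
    by_contra h
    exact hv (hc0 v fun h' => h ((hmS v).2 h'))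
  have key := Pool.Agent.Q151.LQ.card_le_prod (fun (v : HeightOneSpectrum (𝓞 F)) (b b' : F) => Lpw p v (b / b'))
    (fun v => p ^ (c v + 1)) S B ?_ ?_ ?_ ?_ ?_
  · refine key.trans (le_of_eq ?_)
    rw [Finset.prod_pow_eq_pow_sum, Finset.sum_add_distrib, Finset.sum_const, smul_eq_mul, mul_one,
      hcardS, hsumc, add_comm]
  · -- reflexive
    intro v _ b hb
    exact lpw_div_self hB v (hBc b hb).ne
  · -- symmetric
    intro v _ b hb b' hb' h
    exact lpw_div_symm hB h
  · -- transitive
    intro v _ b hb b' hb' b'' hb'' h h'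
    exact lpw_div_trans hB (hBc b' hb').ne h h'
  · -- the numbers of the classes
    intro v hi T hTB hT
    have hv : Sm y v := (hmS v).1 hi
    show T.card ≤ p ^ (c v + 1)
    by_cases hdy : Dp p v
    · exact hL.num v D hdy hD T (fun b hb => (hBc b (hTB hb)).abv v hdy) hT
    · rw [hL.zero v hdy, zero_add, pow_one]
      have hcard : (Finset.univ : Finset (ZMod p)).card = p := by
        rw [Finset.card_univ, ZMod.card]
      by_cases hod : vl p v D = 0
      · refine (Finset.card_le_card_of_injOn (fun b => sy p ζ v b) (fun _ _ => Finset.mem_univ _)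
          ?_).trans hcard.le
        intro b hb b' hb' hbb
        by_contra hne
        have hb1 := hBc b (hTB hb)
        have hb2 := hBc b' (hTB hb')
        have h1 := hb1.unr v hv hdy hod
        have h2 := hb2.unr v hv hdy hod
        have h3 : vl p v (b / b') = 0 := by rw [vl_div hB v hb1.ne hb2.ne, h1, h2, sub_zero]
        refine hT b hb b' hb' hne ((sy_zero_iff hB hdy hζ (div_ne_zero hb1.ne hb2.ne) h3).1 ?_)
        have h4 : sy p ζ v b = sy p ζ v b' := hbb
        rw [sy_div hB hdy hζ hb1.ne hb2.ne h1 h2, h4, sub_self]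
      · have hex : ∀ b : F, ∃ j : ℕ, b ∈ T → Lpw p v (b * D ^ j) := by
          intro b
          by_cases hb : b ∈ T
          · obtain ⟨j, hj⟩ := (hBc b (hTB hb)).ram v hv hdy hod
            exact ⟨j, fun _ => hj⟩
          · exact ⟨0, fun h => absurd h hb⟩
        choose j hj using hex
        refine (Finset.card_le_card_of_injOn (fun b => (j b : ZMod p)) (fun _ _ => Finset.mem_univ _)
          ?_).trans hcard.le
        intro b hb b' hb' hbb
        by_contra hne
        have hb1 := hBc b (hTB hb)
        have hb2 := hBc b' (hTB hb')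
        refine hT b hb b' hb' hne ?_
        have h4 : ((j b' : ℕ) : ZMod p) = (j b : ℕ) := hbb.symm
        have h5 := lpw_mul hB (lpw_div hB (hj b hb) (hj b' hb')) (lpw_pow_div hB v hD h4)
        have h6 : b * D ^ j b / (b' * D ^ j b') * (D ^ j b' / D ^ j b) = b / b' := by
          have := hb2.ne
          have h7 := pow_ne_zero (j b) hD
          have h8 := pow_ne_zero (j b') hD
          field_simp
        rwa [h6] at h5
  · -- separation
    intro b hb b' hb' hne
    by_contra hno
    push Not at hno
    have hb1 := hBc b hb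
    have hb2 := hBc b' hb'
    exact hBn b hb b' hb' hne ⟨div_ne_zero hb1.ne hb2.ne, fun v hv => hno v ((hmS v).2 hv)⟩

end Pool.Agent.Q265.LK
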