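import Pool.Agent.Q265.LK.Bas2

/-!
# LK, BAS1: bases of the S-units and of the classes modulo `Nn p y`
-/

set_option autoImplicit false

namespace Pool.Agent.Q265.LK

open NumberField IsDedekindDomain Filter Topology
open Pool.Agent.Q283.LQ (Sm Box Nest nS)
open Pool.Agent.Q7.LK

/-- **BAS1** -/
theorem bas1 (hBAS : S_BAS) (hLOC : S_LOC) (hSU : S_SU) (hREC : S_REC) (hCHEB : S_CHEB) : S_BAS1 := by
  intro p _ hp2 F _ _ ζ hζ
  classical
  have hp : p.Prime := Fact.out
  obtain ⟨y1, H1⟩ := hSU p F ζ hζ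
  refine ⟨max y1 p, fun y hy => ?_⟩
  have hy1 : y1 ≤ y := (le_max_left _ _).trans hy
  have hy3 : p ≤ y := (le_max_right _ _).trans hy
  obtain ⟨hpr, -, -⟩ := H1 y hy1
  obtain ⟨-, hfull0, f, u, hf, hu, hind, hfull⟩ := H1 y hy1
  obtain ⟨hSfin, hLOC'⟩ := hLOC p hp2 F ζ hζ y hy3
  have hREC' := hREC p hp2 F ζ hζ y hy3
  -- the generators of the primes
  have hex : ∀ q : HeightOneSpectrum (𝓞 F), ∃ P : F, ¬ Sm y q →
      (q.valuation F P = WithZero.exp (-1 : ℤ) ∧
        ∀ v : HeightOneSpectrum (𝓞 F), ¬ Sm y v → v ≠ q → v.valuation F P = 1) := by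
    intro q
    by_cases h : Sm y q
    · exact ⟨1, fun h' => absurd h h'⟩
    · obtain ⟨P, hP⟩ := hpr q h
      exact ⟨P, fun _ => hP⟩
  choose P hpv using hex
  have hu0 : ∀ l, u l ≠ 0 := fun l => (hu l).1
  have hp0 : ∀ q, ¬ Sm y q → P q ≠ 0 := by
    intro q hq h0
    have h1 := (hpv q hq).1
    rw [h0, map_zero] at h1
    exact WithZero.exp_ne_zero h1.symm
  have hDy : ∀ q : HeightOneSpectrum (𝓞 F), ¬ Sm y q → ¬ Dp p q := fun q hq h => hq ⟨p, hp, hy3, h⟩
  have hmonv : ∀ (c : Fin f → ZMod p) (v : HeightOneSpectrum (𝓞 F)), ¬ Sm y v →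
      v.valuation F (mon u c) = 1 := fun c v hv => val_mon u (fun l => (hu l).2 v hv) c
  -- Psi vanishes on Nn
  have hPsiN : ∀ b : F, Nn p y b → ∀ l, Psi p ζ y b (u l) = 0 := by
    intro b hb l
    have h := (hREC' b (u l) hb.1 (hu0 l) (fun v hv => Or.inr ((hu l).2 v hv)) hb).2
    have h2 : Psi p ζ y b (u l) = Psi p ζ y (u l) b := h
    rw [h2]
    exact Psi_unit (fun v hv => vl_of_val_one v ((hu l).2 v hv)) b
  have hPsip : ∀ q, ¬ Sm y q → ∀ c, Psi p ζ y (P q) c = sy p ζ q c := fun q hq c =>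
    Psi_prime hq (hpv q hq).1 (hpv q hq).2 c
  have hPsiu : ∀ c l, Psi p ζ y (mon u c) (u l) = 0 := fun c l =>
    Psi_unit (fun v hv => vl_of_val_one v (hmonv c v hv)) _
  -- the classes of the monomials in `u`
  have hinj : ∀ c : Fin f → ZMod p, Nn p y (mon u c) → c = 0 := by
    intro c hN
    funext l0
    obtain ⟨q, hq, hqs⟩ := exists_q hCHEB hζ u hu0 hind (Pi.single l0 1) hSfin
    have hq' : ¬ Sm y q := hq
    have h : Psi p ζ y (mon u c) (P q) = Psi p ζ y (P q) (mon u c) :=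
      (hREC' (mon u c) (P q) (mon_ne u hu0 c) (hp0 q hq') (fun v hv => Or.inl (hmonv c v hv)) hN).2
    rw [Psi_unit (fun v hv => vl_of_val_one v (hmonv c v hv)), hPsip q hq',
      sy_mon hBAS hζ (hDy q hq') u hu0 (fun l => vl_of_val_one q ((hu l).2 q hq')) c] at h
    have h3 : ∑ l, c l * sy p ζ q (u l) = c l0 := by
      rw [Finset.sum_eq_single l0]
      · rw [hqs, Pi.single_eq_same, mul_one]
      · intro l _ hl
        rw [hqs, Pi.single_eq_of_ne hl, mul_zero]
      · intro h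
        exact absurd (Finset.mem_univ _) h
    rw [h3] at h
    exact h.symm
  -- the elements `r`
  have hq : ∀ l : Fin f, ∃ q : HeightOneSpectrum (𝓞 F), ¬ Sm y q ∧
      ∀ i, sy p ζ q (u i) = (Pi.single l 1 : Fin f → ZMod p) i := by
    intro l
    obtain ⟨q, h1, h2⟩ := exists_q hCHEB hζ u hu0 hind (Pi.single l 1) hSfin
    exact ⟨q, h1, h2⟩
  choose q hqS hqs using hq
  obtain ⟨r, hr⟩ : ∃ r : Fin f → F, r = fun l => (P (q l))⁻¹ := ⟨_, rfl⟩
  have hrl : ∀ l, r l = (P (q l))⁻¹ := fun l => by rw [hr]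
  have hr0 : ∀ l, r l ≠ 0 := fun l => by rw [hrl]; exact inv_ne_zero (hp0 _ (hqS l))
  have hPsir : ∀ φ i, Psi p ζ y (mon r φ) (u i) = - φ i := by
    intro φ i
    rw [Psi_mon hBAS ζ y r hr0, Finset.sum_eq_single i]
    · rw [hrl, Psi_inv hBAS ζ y (hp0 _ (hqS i)), hPsip _ (hqS i), hqs, Pi.single_eq_same]
      ring
    · intro l _ hl
      rw [hrl, Psi_inv hBAS ζ y (hp0 _ (hqS l)), hPsip _ (hqS l), hqs, Pi.single_eq_of_ne (Ne.symm hl)]
      ring
    · intro h
      exact absurd (Finset.mem_univ _) h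
  obtain ⟨W, hW⟩ : ∃ W : (Fin f → ZMod p) × (Fin f → ZMod p) → F, W = fun x => mon r x.1 * mon u x.2 :=
    ⟨_, rfl⟩
  have hWx : ∀ x, W x = mon r x.1 * mon u x.2 := fun x => by rw [hW]
  have hW0 : ∀ x, W x ≠ 0 := fun x => by
    rw [hWx]; exact mul_ne_zero (mon_ne r hr0 _) (mon_ne u hu0 _)
  have hPsiW : ∀ x i, Psi p ζ y (W x) (u i) = - x.1 i := fun x i => by
    rw [hWx, Psi_mul hBAS ζ y (mon_ne r hr0 _) (mon_ne u hu0 _), hPsir, hPsiu, add_zero]
  have hdiff : ∀ x x', Nn p y (W x / W x') → x = x' := by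
    intro x x' hN
    have h2 : x.1 = x'.1 := by
      funext i
      have h1 := hPsiN _ hN i
      rw [Psi_div hBAS ζ y (hW0 x) (hW0 x'), hPsiW, hPsiW] at h1
      linear_combination -h1
    obtain ⟨w, hw0, hw⟩ := mon_div u hu0 x.2 x'.2
    have e : W x / W x' = w ^ p * mon u (x.2 - x'.2) := by
      rw [hWx, hWx, ← h2, mul_div_mul_left _ _ (mon_ne r hr0 _)]
      exact hw
    rw [e] at hN
    have h3 := hinj _ (Nn_cancel hBAS hw0 hN)
    exact Prod.ext h2 (sub_eq_zero.1 h3)
  have hassoc : ∀ (b : F) (x : (Fin f → ZMod p) × (Fin f → ZMod p)),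
      b * mon r x.1 * mon u x.2 = b * W x := fun b x => by rw [hWx]; ring
  have hcls : ∀ b : F, b ≠ 0 → ∃! x : (Fin f → ZMod p) × (Fin f → ZMod p),
      Nn p y (b * mon r x.1 * mon u x.2) := by
    intro b hb
    have hex : ∃ x, Nn p y (b * W x) := by
      by_contra hcon
      push Not at hcon
      have hWinj : Function.Injective W := by
        intro x x' h
        apply hdiff
        rw [h, div_self (hW0 x')]
        exact Nn_one hBAS y
      have hcon' : ∀ x, ¬ Nn p y (b⁻¹ / W x) := by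
        intro x h
        apply hcon x
        have h1 := Nn_inv hBAS h
        rwa [inv_div, div_inv_eq_mul, mul_comm] at h1
      have hcon2 : ∀ x, ¬ Nn p y (W x / b⁻¹) := by
        intro x h
        apply hcon x
        rwa [div_inv_eq_mul, mul_comm] at h
      have hnot : b⁻¹ ∉ Finset.univ.image W := by
        intro h
        obtain ⟨x, -, hx⟩ := Finset.mem_image.1 h
        apply hcon' x
        rw [hx, div_self (inv_ne_zero hb)]
        exact Nn_one hBAS y
      have hcard := hLOC' (insert b⁻¹ (Finset.univ.image W)) (by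
        intro c hc
        rcases Finset.mem_insert.1 hc with h | h
        · rw [h]; exact inv_ne_zero hb
        · obtain ⟨x, -, hx⟩ := Finset.mem_image.1 h
          rw [← hx]; exact hW0 x) (by
        intro c hc c' hc' hne hN
        rcases Finset.mem_insert.1 hc with h | h
        · rcases Finset.mem_insert.1 hc' with h' | h'
          · exact hne (h.trans h'.symm)
          · obtain ⟨x', -, hx'⟩ := Finset.mem_image.1 h'
            rw [h, ← hx'] at hN
            exact hcon' x' hN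
        · obtain ⟨x, -, hx⟩ := Finset.mem_image.1 h
          rcases Finset.mem_insert.1 hc' with h' | h'
          · rw [h', ← hx] at hN
            exact hcon2 x hN
          · obtain ⟨x', -, hx'⟩ := Finset.mem_image.1 h'
            rw [← hx, ← hx'] at hN
            apply hne
            rw [← hx, ← hx', hdiff _ _ hN])
      rw [Finset.card_insert_of_notMem hnot, Finset.card_image_of_injective _ hWinj, Finset.card_univ,
        Fintype.card_prod, Fintype.card_fun, Fintype.card_fin, ZMod.card] at hcard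
      have h5 := InfinitePlace.card_add_two_mul_card_eq_rank F
      have hp3 : 2 < p := lt_of_le_of_ne hp.two_le (Ne.symm hp2)
      have h8 : InfinitePlace.nrRealPlaces F = 0 := NumberField.InfinitePlace.IsPrimitiveRoot.nrRealPlaces_eq_zero_of_two_lt hp3 hζ
      have h6 : p ^ (2 * nS F y + Module.finrank ℚ F) ≤ p ^ (2 * f) :=
        Nat.pow_le_pow_right hp.pos (by omega)
      have h7 : p ^ f * p ^ f = p ^ (2 * f) := by rw [two_mul, pow_add]
      omega
    obtain ⟨x, hx⟩ := hex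
    refine ⟨x, ?_, ?_⟩
    · show Nn p y (b * mon r x.1 * mon u x.2)
      rw [hassoc]; exact hx
    · intro x' hx'
      rw [hassoc] at hx'
      apply hdiff
      have h1 := Nn_div hBAS hx' hx
      rwa [mul_div_mul_left _ _ hb] at h1
  refine ⟨f, u, r, P, ⟨hy3, hu0, hr0, fun l v hv => (hu l).2 v hv, hind, hfull, hpv, hcls, ?_⟩, hf⟩
  intro q' hq'
  obtain ⟨x, hx, -⟩ := hcls (P q') (hp0 q' hq')
  have hx' : Nn p y (P q' * mon r x.1 * mon u x.2) := hx
  refine ⟨x.2, ?_⟩
  have h1 := hx'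
  rw [hassoc] at h1
  have h3 : (fun l => sy p ζ q' (u l)) = x.1 := by
    funext l
    have h2 := hPsiN _ h1 l
    rw [Psi_mul hBAS ζ y (hp0 q' hq') (hW0 x), hPsiW, hPsip q' hq'] at h2
    linear_combination h2
  rw [h3]
  exact hx'

end Pool.Agent.Q265.LK
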