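import Pool.Agent.Q265.LK.CHEBA
import Pool.Agent.Q129.LQ.CHEB

/-!
# Project LK, job CHEB: Chebotarev's theorem for the `p`-th power residue symbols
-/

set_option autoImplicit false

namespace Pool.Agent.Q265.LK

open NumberField IsDedekindDomain Filter Topology Finset
open Pool.Agent.Q7.LK Pool.Agent.W401.Cheb
open Pool.Agent.Q129.LQ (chebK fin_mem fin_le dens_eq cmp tend_all)

section

variable {p : ℕ} [Fact p.Prime] {F : Type} [Field F] [NumberField F] {ζ : F}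

/-- every class modulo `p`-th powers contains an integer -/
theorem int_class {a : F} (ha : a ≠ 0) : ∃ (α : 𝓞 F) (y : F), α ≠ 0 ∧ y ≠ 0 ∧
    algebraMap (𝓞 F) F α = a * y ^ p := by
  have hp : p.Prime := Fact.out
  obtain ⟨P, q, hq, hpq⟩ := IsFractionRing.div_surjective (A := 𝓞 F) a
  have hq0 : algebraMap (𝓞 F) F q ≠ 0 := by
    intro h
    exact nonZeroDivisors.ne_zero hq ((map_eq_zero_iff _ (FaithfulSMul.algebraMap_injective (𝓞 F) F)).1 h)
  have hp0 : algebraMap (𝓞 F) F P ≠ 0 := by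
    intro h
    rw [h, zero_div] at hpq
    exact ha hpq.symm
  refine ⟨P * q ^ (p - 1), algebraMap (𝓞 F) F q, ?_, hq0, ?_⟩
  · intro h
    have h1 := congrArg (algebraMap (𝓞 F) F) h
    rw [map_mul, map_pow, map_zero] at h1
    exact mul_ne_zero hp0 (pow_ne_zero _ hq0) h1
  · rw [map_mul, map_pow, ← hpq]
    have h1 : algebraMap (𝓞 F) F q ^ p = algebraMap (𝓞 F) F q ^ (p - 1) * algebraMap (𝓞 F) F q := by
      rw [← pow_succ, Nat.sub_add_cancel hp.one_lt.le]
    rw [h1]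
    field_simp

/-- a Frobenius element and a `p`-th root -/
theorem frob_sym (hB : S_BAS) (hζ : IsPrimitiveRoot ζ p) {v : HeightOneSpectrum (𝓞 F)} (hv : ¬ Dp p v)
    {a y : F} (ha : a ≠ 0) (hy : y ≠ 0) {α : 𝓞 F} (hα : α ∉ v.asIdeal)
    (hαa : algebraMap (𝓞 F) F α = a * y ^ p)
    {s : AlgebraicClosure F} (hs : s ^ p = algebraMap F (AlgebraicClosure F) a)
    {σ : GK F} (hσ : IsFrob v σ) : ch p ζ s σ = sy p ζ v a := by
  classical
  have hp : p.Prime := Fact.out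
  have : NeZero p := ⟨hp.ne_zero⟩
  obtain ⟨Q, hQm, hQv, hQ⟩ := hσ
  obtain ⟨c, hc⟩ : ∃ c, c = ch p ζ s σ := ⟨_, rfl⟩
  obtain ⟨hdvd, hSy, -, -⟩ := (hB p F v).2.2.2.2.2.2 hv ζ hζ
  have hα1 := (v.valuation_eq_one_iff_notMem (K := F)).2 hα
  have hva : vl p v a = 0 := by
    have h1 := vl_of_val_one (p := p) v hα1
    rw [hαa, vl_mul hB v ha (pow_ne_zero p hy), vl_ppow hB v hy, add_zero] at h1
    exact h1
  obtain ⟨N, hN⟩ : ∃ N, N = Ideal.absNorm v.asIdeal := ⟨_, rfl⟩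
  rw [← hN] at hdvd
  have hN1 : 1 ≤ N := by
    rw [hN]
    exact Nat.one_le_iff_ne_zero.2 (by
      rw [Ne, Ideal.absNorm_eq_zero_iff]
      exact v.ne_bot)
  obtain ⟨k, hk⟩ : ∃ k, k = (N - 1) / p := ⟨_, rfl⟩
  have hNk : N = p * k + 1 := by
    rw [hk, Nat.mul_div_cancel' hdvd]
    omega
  -- the roots
  obtain ⟨t, ht0⟩ : ∃ t, t = s * algebraMap F (AlgebraicClosure F) y := ⟨_, rfl⟩
  have ht : t ^ p = algebraMap F (AlgebraicClosure F) (algebraMap (𝓞 F) F α) := by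
    rw [ht0, hαa, mul_pow, hs, map_mul, map_pow]
  have hti : IsIntegral ℤ t := by
    apply IsIntegral.of_pow (n := p) hp.pos
    rw [ht]
    exact (RingOfIntegers.isIntegral_coe α).algebraMap
  let T : 𝓞 (AlgebraicClosure F) := ⟨t, hti⟩
  have hTp : T ^ p = algebraMap (𝓞 F) (𝓞 (AlgebraicClosure F)) α := by
    apply RingOfIntegers.ext
    exact ht
  have hmem : ∀ β : 𝓞 F, algebraMap (𝓞 F) (𝓞 (AlgebraicClosure F)) β ∈ Q ↔ β ∈ v.asIdeal := by
    intro β
    rw [← hQv, Ideal.mem_comap]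
  have hTQ : T ∉ Q := by
    intro h
    apply hα
    rw [← hmem, ← hTp]
    exact Q.pow_mem_of_mem h p hp.pos
  let Z : 𝓞 F := ⟨ζ, hζ.isIntegral hp.pos⟩
  have hZ : algebraMap (𝓞 F) F Z = ζ := rfl
  have hσT : (σ • T : 𝓞 (AlgebraicClosure F)) = algebraMap (𝓞 F) (𝓞 (AlgebraicClosure F)) (Z ^ c.val) * T := by
    apply RingOfIntegers.ext
    show σ t = algebraMap F (AlgebraicClosure F) (algebraMap (𝓞 F) F (Z ^ c.val)) * t
    rw [map_pow, hZ, ht0, map_mul, ch_spec hζ hs σ, ← hc]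
    have h1 : σ (algebraMap F (AlgebraicClosure F) y) = algebraMap F (AlgebraicClosure F) y := σ.commutes y
    rw [h1]
    unfold sg
    ring
  have hpow : T ^ N = algebraMap (𝓞 F) (𝓞 (AlgebraicClosure F)) (α ^ k) * T := by
    rw [hNk, pow_succ, pow_mul, hTp, map_pow]
  have hTf := hQ T
  rw [← hN, hpow, hσT, ← sub_mul, ← map_sub] at hTf
  have h2 : Z ^ c.val - α ^ k ∈ v.asIdeal := by
    rw [← hmem]
    exact (hQm.isPrime.mem_or_mem hTf).resolve_right hTQ
  have h3 : v.valuation F (algebraMap (𝓞 F) F (Z ^ c.val - α ^ k)) < 1 :=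
    (v.valuation_lt_one_iff_mem (K := F) _).2 h2
  rw [map_sub, map_pow, map_pow, hZ] at h3
  rw [← hc]
  refine (hSy a ha hva c).1 ⟨y, ?_, ?_⟩
  · rw [← hαa]
    exact hα1
  · rw [← hαa, ← hN, ← hk, Valuation.map_sub_swap]
    exact h3

/-- at almost all places the characters of the Frobenius elements are the residue symbols -/
theorem sym_frob (hB : S_BAS) (hζ : IsPrimitiveRoot ζ p) {m : ℕ} {a : Fin m → F} (ha : ∀ i, a i ≠ 0)
    {s : Fin m → AlgebraicClosure F}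
    (hs : ∀ i, s i ^ p = algebraMap F (AlgebraicClosure F) (a i)) :
    ∃ S : Set (HeightOneSpectrum (𝓞 F)), S.Finite ∧ ∀ v ∉ S, ∀ σ : GK F, IsFrob v σ →
      ∀ i, ch p ζ (s i) σ = sy p ζ v (a i) := by
  have hp : p.Prime := Fact.out
  choose α y hα0 hy hα using fun i => int_class (p := p) (ha i)
  refine ⟨{v | Dp p v} ∪ ⋃ i, {v : HeightOneSpectrum (𝓞 F) | α i ∈ v.asIdeal}, ?_, ?_⟩
  · apply Set.Finite.union
    · exact fin_mem (F := F) (α := (p : 𝓞 F)) (Nat.cast_ne_zero.2 hp.ne_zero)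
    · exact Set.finite_iUnion fun i => fin_mem (hα0 i)
  · intro v hv σ hσ i
    have hv1 : ¬ Dp p v := fun h => hv (Or.inl h)
    have hv2 : α i ∉ v.asIdeal := fun h => hv (Or.inr (Set.mem_iUnion.2 ⟨i, h⟩))
    exact frob_sym hB hζ hv1 (ha i) (hy i) hv2 (hα i) (hs i) hσ

end

/-- **JOB CHEB** -/
theorem cheb (hBAS : S_BAS) : S_CHEB := by
  classical
  intro p _ F _ _ ζ hζ m a ha hi e
  have hp : p.Prime := Fact.out
  have hex : ∀ i, ∃ s : AlgebraicClosure F, s ^ p = algebraMap F (AlgebraicClosure F) (a i) := by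
    intro i
    exact IsAlgClosed.exists_pow_nat_eq _ hp.pos
  choose s hs using hex
  obtain ⟨Φ, hΦ⟩ := ch_hom ha hs hζ
  have hsurj := ch_surj ha hs hζ hi Φ hΦ
  have hopen := ker_open ha hs hζ Φ hΦ
  obtain ⟨S, hS, hSv⟩ := sym_frob hBAS hζ ha hs
  -- Chebotarev's theorem for the class
  let C : Set (GK F) := {σ | Φ σ = Multiplicative.ofAdd e}
  have h1 := chebK F Φ.ker hopen C (by
      intro σ hσ τ
      show Φ (τ * σ * τ⁻¹) = _
      rw [map_mul, map_mul, map_inv, mul_comm (Φ τ), mul_inv_cancel_right]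
      exact hσ) (by
      intro σ hσ u hu
      show Φ (σ * u) = _
      rw [map_mul, MonoidHom.mem_ker.1 hu, mul_one]
      exact hσ)
  obtain ⟨σ0, hσ0⟩ := hsurj (Multiplicative.ofAdd e)
  have hC1 : ((QuotientGroup.mk : GK F → GK F ⧸ Φ.ker) '' C).ncard = 1 := by
    rw [Set.ncard_eq_one]
    refine ⟨QuotientGroup.mk σ0, ?_⟩
    ext x
    constructor
    · rintro ⟨σ, hσ, rfl⟩
      rw [Set.mem_singleton_iff, QuotientGroup.eq, MonoidHom.mem_ker, map_mul, map_inv, hσ0]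
      have : Φ σ = Multiplicative.ofAdd e := hσ
      rw [this, inv_mul_cancel]
    · intro hx
      rw [Set.mem_singleton_iff] at hx
      exact ⟨σ0, hσ0, hx.symm⟩
  have hC2 : Nat.card (GK F ⧸ Φ.ker) = p ^ m := by
    rw [Nat.card_congr (QuotientGroup.quotientKerEquivOfSurjective Φ hsurj).toEquiv]
    have h2 : Nat.card (Multiplicative (Fin m → ZMod p)) = Nat.card (Fin m → ZMod p) := rfl
    rw [h2, Nat.card_eq_fintype_card]
    simp [ZMod.card]
  rw [hC1, hC2] at h1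
  push_cast at h1
  -- all places
  have h2 := chebK F (⊤ : Subgroup (GK F)) isOpen_univ Set.univ (fun _ _ _ => Set.mem_univ _)
    (fun _ _ _ _ => Set.mem_univ _)
  have hT1 : ((QuotientGroup.mk : GK F → GK F ⧸ (⊤ : Subgroup (GK F))) '' Set.univ).ncard = 1 := by
    rw [Set.ncard_eq_one]
    refine ⟨QuotientGroup.mk 1, ?_⟩
    ext x
    constructor
    · rintro ⟨σ, -, rfl⟩
      rw [Set.mem_singleton_iff, QuotientGroup.eq]
      exact Subgroup.mem_top _
    · intro hx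
      rw [Set.mem_singleton_iff] at hx
      exact ⟨1, Set.mem_univ _, hx.symm⟩
  have hT2 : Nat.card (GK F ⧸ (⊤ : Subgroup (GK F))) = 1 := by
    have := Subgroup.index_top (G := GK F)
    exact this
  rw [hT1, hT2] at h2
  have hfr := (Pool.Agent.W401.Frob.main F).1
  -- the ratio
  have h3 : Tendsto (fun X : ℕ =>
      ({v : HeightOneSpectrum (𝓞 F) | Ideal.absNorm v.asIdeal ≤ X ∧ ∃ σ ∈ C, IsFrob v σ}.ncard : ℝ) /
      ({v : HeightOneSpectrum (𝓞 F) | Ideal.absNorm v.asIdeal ≤ X}.ncard : ℝ)) atTop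
      (𝓝 (1 / (p : ℝ) ^ m)) := by
    have h4 := h1.div h2 (by norm_num)
    have h5 : (1 : ℝ) / (p : ℝ) ^ m / (((1 : ℕ) : ℝ) / ((1 : ℕ) : ℝ)) = 1 / (p : ℝ) ^ m := by norm_num
    rw [h5] at h4
    refine h4.congr' ?_
    filter_upwards [eventually_ge_atTop 2] with X hX
    rw [Pi.div_apply, dens_eq, dens_eq]
    have h6 : {v : HeightOneSpectrum (𝓞 F) | Ideal.absNorm v.asIdeal ≤ X ∧ ∃ σ ∈ (Set.univ : Set (GK F)), IsFrob v σ} =
        {v : HeightOneSpectrum (𝓞 F) | Ideal.absNorm v.asIdeal ≤ X} := by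
      ext v
      constructor
      · exact fun h => h.1
      · intro h
        obtain ⟨σ, hσ⟩ := hfr v
        exact ⟨h, σ, Set.mem_univ _, hσ⟩
    rw [h6]
    have h7 : (Nat.primeCounting X : ℝ) ≠ 0 := by
      have h8 : 0 < Nat.primeCounting X := by
        have h9 : Nat.primeCounting 2 ≤ Nat.primeCounting X := Nat.monotone_primeCounting hX
        have h10 : 0 < Nat.primeCounting 2 := by decide
        omega
      exact_mod_cast h8.ne'
    rw [div_div_div_cancel_right₀ h7]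
  -- comparison
  have hK : Tendsto (fun X : ℕ => (S.ncard : ℝ) /
      ({v : HeightOneSpectrum (𝓞 F) | Ideal.absNorm v.asIdeal ≤ X}.ncard : ℝ)) atTop (𝓝 0) :=
    Tendsto.div_atTop tendsto_const_nhds tend_all
  have hlow := h3.sub hK
  have hupp := h3.add hK
  rw [sub_zero] at hlow
  rw [add_zero] at hupp
  have hPQ : ∀ v ∉ S, (∀ i, sy p ζ v (a i) = e i) → ∃ σ ∈ C, IsFrob v σ := by
    intro v hv h
    obtain ⟨σ, hσ⟩ := hfr v
    refine ⟨σ, ?_, hσ⟩
    show Φ σ = _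
    rw [hΦ]
    congr 1
    funext i
    rw [hSv v hv σ hσ i, h i]
  have hQP : ∀ v ∉ S, (∃ σ ∈ C, IsFrob v σ) → ∀ i, sy p ζ v (a i) = e i := by
    rintro v hv ⟨σ, hσC, hσ⟩ i
    have h4 : Φ σ = Multiplicative.ofAdd e := hσC
    rw [hΦ] at h4
    have h5 := congrFun (Multiplicative.ofAdd.injective h4) i
    rw [← hSv v hv σ hσ i]
    exact h5
  refine tendsto_of_tendsto_of_tendsto_of_le_of_le hlow hupp (fun X => ?_) (fun X => ?_)
  · show _ / _ - _ / _ ≤ _ / _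
    rw [← sub_div]
    apply div_le_div_of_nonneg_right _ (Nat.cast_nonneg _)
    have h4 := cmp (fun v => ∃ σ ∈ C, IsFrob v σ) (fun v => ∀ i, sy p ζ v (a i) = e i) S hS hQP X
    linarith
  · show _ / _ ≤ _ / _ + _ / _
    rw [← add_div]
    apply div_le_div_of_nonneg_right _ (Nat.cast_nonneg _)
    exact cmp (fun v => ∀ i, sy p ζ v (a i) = e i) (fun v => ∃ σ ∈ C, IsFrob v σ) S hS hPQ X

end Pool.Agent.Q265.LK
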