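import Pool.Agent.Q265.LK.Bas2
import Pool.Agent.W401.Cheb.Frob

/-!
# Project LK, job CHEB: the Galois group of the `p`-th roots
-/

set_option autoImplicit false

namespace Pool.Agent.Q265.LK

open NumberField IsDedekindDomain Filter Topology Finset
open Pool.Agent.W401.Cheb
open Pool.Agent.Q7.LK

section

variable {p : ℕ} [Fact p.Prime] {F : Type} [Field F] [NumberField F] {ζ : F}

theorem pow_mod_of_root (hζ : IsPrimitiveRoot ζ p) (n : ℕ) : ζ ^ (n % p) = ζ ^ n := by
  conv_rhs => rw [← Nat.div_add_mod n p, pow_add, pow_mul, hζ.pow_eq_one, one_pow, one_mul]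

/-- the roots of unity in the algebraic closure -/
noncomputable def sg (p : ℕ) (ζ : F) (x : ZMod p) : AlgebraicClosure F :=
  algebraMap F (AlgebraicClosure F) (ζ ^ x.val)

theorem sg_zero (ζ : F) : sg p ζ 0 = 1 := by simp [sg]

theorem sg_add (hζ : IsPrimitiveRoot ζ p) (x y : ZMod p) : sg p ζ (x + y) = sg p ζ x * sg p ζ y := by
  unfold sg
  rw [← map_mul, ← pow_add, ZMod.val_add, pow_mod_of_root hζ]

theorem sg_pow (hζ : IsPrimitiveRoot ζ p) (x c : ZMod p) : sg p ζ x ^ c.val = sg p ζ (x * c) := by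
  unfold sg
  rw [← map_pow, ← pow_mul, ZMod.val_mul, pow_mod_of_root hζ]

theorem sg_sum (hζ : IsPrimitiveRoot ζ p) {ι : Type} (s : Finset ι) (x : ι → ZMod p) :
    ∏ i ∈ s, sg p ζ (x i) = sg p ζ (∑ i ∈ s, x i) := by
  classical
  induction s using Finset.induction_on with
  | empty => simp [sg_zero]
  | insert i s hi ih => rw [Finset.prod_insert hi, Finset.sum_insert hi, sg_add hζ, ih]

theorem sg_inj (hζ : IsPrimitiveRoot ζ p) {x y : ZMod p} (h : sg p ζ x = sg p ζ y) : x = y := by
  have h1 : ζ ^ x.val = ζ ^ y.val := (algebraMap F (AlgebraicClosure F)).injective h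
  have h2 := hζ.pow_inj (ZMod.val_lt x) (ZMod.val_lt y) h1
  exact ZMod.val_injective p h2

open Classical in
/-- the character of a `p`-th root -/
noncomputable def ch (p : ℕ) (ζ : F) (s : AlgebraicClosure F) (σ : GK F) : ZMod p :=
  if h : ∃ c : ZMod p, σ s = sg p ζ c * s then h.choose else 0

theorem ch_spec (hζ : IsPrimitiveRoot ζ p) {s : AlgebraicClosure F} {a : F}
    (hs : s ^ p = algebraMap F (AlgebraicClosure F) a) (σ : GK F) : σ s = sg p ζ (ch p ζ s σ) * s := by
  have hp : p.Prime := Fact.out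
  have : NeZero p := ⟨hp.ne_zero⟩
  have hex : ∃ c : ZMod p, σ s = sg p ζ c * s := by
    by_cases hs0 : s = 0
    · exact ⟨0, by rw [hs0, map_zero, mul_zero]⟩
    have h1 : (σ s) ^ p = s ^ p := by
      rw [← map_pow, hs]
      exact σ.commutes a
    have hζ' : IsPrimitiveRoot (algebraMap F (AlgebraicClosure F) ζ) p :=
      hζ.map_of_injective (algebraMap F (AlgebraicClosure F)).injective
    have h2 : (σ s / s) ^ p = 1 := by rw [div_pow, h1, div_self (pow_ne_zero p hs0)]
    obtain ⟨i, hi, hi2⟩ := hζ'.eq_pow_of_pow_eq_one h2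
    refine ⟨(i : ZMod p), ?_⟩
    unfold sg
    rw [ZMod.val_natCast_of_lt hi, map_pow, hi2, div_mul_cancel₀ _ hs0]
  unfold ch
  rw [dif_pos hex]
  exact hex.choose_spec

theorem ch_unique (hζ : IsPrimitiveRoot ζ p) {s : AlgebraicClosure F} (hs0 : s ≠ 0) {a : F}
    (hs : s ^ p = algebraMap F (AlgebraicClosure F) a) {σ : GK F} {c : ZMod p}
    (h : σ s = sg p ζ c * s) : ch p ζ s σ = c := by
  apply sg_inj hζ
  apply mul_right_cancel₀ hs0
  rw [← ch_spec hζ hs σ, h]

theorem ch_zero_iff (hζ : IsPrimitiveRoot ζ p) {s : AlgebraicClosure F} (hs0 : s ≠ 0) {a : F}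
    (hs : s ^ p = algebraMap F (AlgebraicClosure F) a) {σ : GK F} : ch p ζ s σ = 0 ↔ σ s = s := by
  constructor
  · intro h
    have h1 := ch_spec hζ hs σ
    rw [h, sg_zero, one_mul] at h1
    exact h1
  · intro h
    refine ch_unique hζ hs0 hs ?_
    rw [h, sg_zero, one_mul]

theorem root_ne {s : AlgebraicClosure F} {a : F} (ha : a ≠ 0)
    (hs : s ^ p = algebraMap F (AlgebraicClosure F) a) : s ≠ 0 := by
  rintro rfl
  apply ha
  rw [zero_pow (Nat.Prime.ne_zero Fact.out)] at hs
  exact (map_eq_zero (algebraMap F (AlgebraicClosure F))).1 hs.symm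

theorem ch_mul (hζ : IsPrimitiveRoot ζ p) {s : AlgebraicClosure F} {a : F} (ha : a ≠ 0)
    (hs : s ^ p = algebraMap F (AlgebraicClosure F) a)
    (σ τ : GK F) : ch p ζ s (σ * τ) = ch p ζ s σ + ch p ζ s τ := by
  have hs0 : s ≠ 0 := root_ne ha hs
  apply sg_inj hζ
  apply mul_right_cancel₀ hs0
  rw [← ch_spec hζ hs (σ * τ), sg_add hζ]
  have h1 : (σ * τ) s = σ (τ s) := rfl
  have h2 : ∀ x : ZMod p, σ (sg p ζ x) = sg p ζ x := fun x => σ.commutes _
  rw [h1, ch_spec hζ hs τ, map_mul, h2, ch_spec hζ hs σ]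
  ring

variable {m : ℕ} {a : Fin m → F} (ha : ∀ i, a i ≠ 0) {s : Fin m → AlgebraicClosure F}
  (hs : ∀ i, s i ^ p = algebraMap F (AlgebraicClosure F) (a i))

include ha hs in
theorem ch_hom (hζ : IsPrimitiveRoot ζ p) : ∃ Φ : GK F →* Multiplicative (Fin m → ZMod p),
    ∀ σ, Φ σ = Multiplicative.ofAdd fun i => ch p ζ (s i) σ := by
  refine ⟨MonoidHom.mk' (fun σ => Multiplicative.ofAdd fun i => ch p ζ (s i) σ) ?_, fun σ => rfl⟩
  intro σ τ
  rw [← ofAdd_add]
  congr 1
  funext i
  exact ch_mul hζ (ha i) (hs i) σ τ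

include ha hs in
/-- the kernel of the characters is open -/
theorem ker_open (hζ : IsPrimitiveRoot ζ p) (Φ : GK F →* Multiplicative (Fin m → ZMod p))
    (hΦ : ∀ σ, Φ σ = Multiplicative.ofAdd fun i => ch p ζ (s i) σ) : IsOpen (Φ.ker : Set (GK F)) := by
  have h1 : (Φ.ker : Set (GK F)) = ⋂ i, (MulAction.stabilizer (GK F) (s i) : Set (GK F)) := by
    ext σ
    rw [SetLike.mem_coe, MonoidHom.mem_ker, hΦ, Set.mem_iInter]
    constructor
    · intro h i
      rw [SetLike.mem_coe, MulAction.mem_stabilizer_iff]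
      have h2 := congrFun (Multiplicative.ofAdd.injective (h.trans ofAdd_zero.symm)) i
      exact (ch_zero_iff hζ (root_ne (ha i) (hs i)) (hs i)).1 h2
    · intro h
      rw [← ofAdd_zero]
      congr 1
      funext i
      exact (ch_zero_iff hζ (root_ne (ha i) (hs i)) (hs i)).2 (MulAction.mem_stabilizer_iff.1 (h i))
  rw [h1]
  exact isOpen_iInter_of_finite fun i => stabilizer_isOpen_of_isIntegral (K := F) (s i)

include ha hs in
/-- the characters are independent -/
theorem ch_surj (hζ : IsPrimitiveRoot ζ p) (hi : ∀ c : Fin m → ZMod p, IsPow p (mon a c) → c = 0)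
    (Φ : GK F →* Multiplicative (Fin m → ZMod p))
    (hΦ : ∀ σ, Φ σ = Multiplicative.ofAdd fun i => ch p ζ (s i) σ) : Function.Surjective Φ := by
  classical
  let V : Submodule (ZMod p) (Fin m → ZMod p) :=
    AddSubgroup.toZModSubmodule p (Subgroup.toAddSubgroup' Φ.range)
  have hV : ∀ σ, (fun i => ch p ζ (s i) σ) ∈ V := by
    intro σ
    show Multiplicative.ofAdd (fun i => ch p ζ (s i) σ) ∈ Φ.range
    exact ⟨σ, hΦ σ⟩
  by_contra hns
  have hVt : V < ⊤ := by
    rw [lt_top_iff_ne_top]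
    intro h
    apply hns
    intro x
    have h1 : Multiplicative.toAdd x ∈ V := by rw [h]; exact Submodule.mem_top
    have h2 : x ∈ Φ.range := h1
    exact h2
  obtain ⟨φ, hφ0, hφ⟩ := Submodule.exists_le_ker_of_lt_top V hVt
  let c : Fin m → ZMod p := fun i => φ (Pi.single i 1)
  have hdot : ∀ v : Fin m → ZMod p, φ v = ∑ i, v i * c i := by
    intro v
    have h1 : v = ∑ i, v i • (Pi.single i 1 : Fin m → ZMod p) := by
      funext j
      rw [Finset.sum_apply, Finset.sum_eq_single j]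
      · simp
      · intro b _ hb
        simp [Pi.single_eq_of_ne hb.symm]
      · intro h; exact absurd (Finset.mem_univ j) h
    conv_lhs => rw [h1]
    rw [map_sum]
    apply Finset.sum_congr rfl
    intro i _
    rw [map_smul, smul_eq_mul]
  have hc : c = 0 := by
    apply hi
    let P : AlgebraicClosure F := ∏ i, s i ^ (c i).val
    have hP2 : P ^ p = algebraMap F (AlgebraicClosure F) (mon a c) := by
      show (∏ i, s i ^ (c i).val) ^ p = _
      unfold mon
      rw [map_prod, ← Finset.prod_pow]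
      apply Finset.prod_congr rfl
      intro i _
      rw [map_pow, ← hs i, ← pow_mul, ← pow_mul, mul_comm]
    have hfix : ∀ σ : GK F, σ P = P := by
      intro σ
      show σ (∏ i, s i ^ (c i).val) = ∏ i, s i ^ (c i).val
      rw [map_prod]
      have h1 : ∀ i, σ (s i ^ (c i).val) = sg p ζ (ch p ζ (s i) σ * c i) * s i ^ (c i).val := by
        intro i
        rw [map_pow, ch_spec hζ (hs i) σ, mul_pow, sg_pow hζ]
      rw [Finset.prod_congr rfl fun i _ => h1 i, Finset.prod_mul_distrib, sg_sum hζ]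
      have h2 : ∑ i, ch p ζ (s i) σ * c i = 0 := by
        rw [← hdot]
        exact hφ (hV σ)
      rw [h2, sg_zero, one_mul]
    haveI : IsGalois F (AlgebraicClosure F) := inferInstance
    obtain ⟨b, hb⟩ := (InfiniteGalois.mem_range_algebraMap_iff_fixed P).2 hfix
    refine ⟨b, ?_⟩
    apply (algebraMap F (AlgebraicClosure F)).injective
    rw [← hP2, ← hb, map_pow]
  apply hφ0
  ext v
  simp [hdot, hc]

end

end Pool.Agent.Q265.LK
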